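import Pool.Agent.Lib.MP_ba7882_co.Trunc

set_option autoImplicit false

namespace Pool.Agent.Lib.MP_ba7882_co

/-- The case of a truncated partition matroid: if `p₁` is skew-supermodular and the sets with `p₂`
at least two are pairwise disjoint, then some list colouring shows at least `max (p₁ X) (p₂ X)`
colours on every set `X` and uses every colour at most `⌈|S| / k⌉` times. -/
theorem equitable (S : Type) [Fintype S] [DecidableEq S] (k : ℕ) (p₁ p₂ : Finset S → ℤ)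
    (L : S → Finset ℕ) (hk : 0 < k)
    (h₁ : ∀ X Y : Finset S,
      p₁ X + p₁ Y ≤ p₁ (X ∩ Y) + p₁ (X ∪ Y) ∨ p₁ X + p₁ Y ≤ p₁ (X \ Y) + p₁ (Y \ X))
    (h₂ : ∀ X Y : Finset S, 2 ≤ p₂ X → 2 ≤ p₂ Y → X = Y ∨ Disjoint X Y)
    (hb : ∀ X : Finset S, max (p₁ X) (p₂ X) ≤ min (X.card : ℤ) (k : ℤ))
    (hL : ∀ s : S, (L s).card = k) :
    ∃ c : S → ℕ, (∀ s : S, c s ∈ L s) ∧
      (∀ X : Finset S, max (p₁ X) (p₂ X) ≤ ((X.image c).card : ℤ)) ∧
      ∀ i : ℕ, (Finset.univ.filter fun s : S => c s = i).card ≤ ⌈(Fintype.card S : ℚ) / k⌉₊ := by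
  obtain ⟨ρ, r1, r2⟩ := exists_part hk h₂
    (fun X => (le_max_right _ _).trans ((hb X).trans (min_le_left _ _)))
    fun X => (le_max_right _ _).trans ((hb X).trans (min_le_right _ _))
  have h := Nat.le_ceil ((Fintype.card S : ℚ) / k)
  rw [div_le_iff₀' (by exact_mod_cast hk)] at h
  obtain ⟨c₀, h₀⟩ := trunc_cover (r := ⌈(Fintype.card S : ℚ) / k⌉₊) r1 (by exact_mod_cast h)
  have hG := trunc_linked (fun x => (ρ x).1) ⌈(Fintype.card S : ℚ) / k⌉₊
  obtain ⟨c, c1, c2, c3⟩ := skew_gammoid hk (fun X Y _ _ _ => h₁ X Y)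
    (fun X => (le_max_left _ _).trans ((hb X).trans (min_le_left _ _)))
    (fun X => (le_max_left _ _).trans ((hb X).trans (min_le_right _ _)))
    (fun i => (hG _).1 (h₀ i)) L fun x => (hL x).ge
  refine ⟨c, c1, fun X => max_le (c2 X) (r2 c (fun s t e => ((hG _).2 (c3 (c t))).1 e rfl) X),
    fun i => le_of_eq_of_le ?_ ((hG _).2 (c3 i)).2⟩
  rw [← Set.ncard_coe_finset, Finset.coe_filter_univ]

end Pool.Agent.Lib.MP_ba7882_co
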